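import Pool.Agent.H.MP_59b15d_al.h47p.Sc
import Pool.Agent.H.MP_59b15d_al.deg.LiftC

set_option autoImplicit false

/-!
# Exact lifts of the lantern relation in a central extension
-/

namespace Pool.MP_59b15d_al.H47P

open Pool.MP_59b15d_al.H95E Pool.MP_59b15d_al.H93E Pool.MP_59b15d_al.H47E
  Pool.Agent.H.MP_59b15d_al.Lft

variable {E G : Type*} [Group E] [Group G] {π : E →* G} {g : ℕ} {A B C S : ℕ → G}
  {A' B' C' : ℕ → E} {z : E}

theorem LD_scale (h : CE π) (D : LD π g A B C A' B' C') (hz : π z = 1) :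
    LD π g A B C (sA g A' z) (sA g B' z) (sC g C' z) := by
  have hc : ∀ x, Commute x z := fun x => (h.cen z hz x).symm
  refine ⟨?_, ?_, ?_, ?_, ?_, ?_, ?_, ?_, ?_⟩
  · intro i
    by_cases hi : i < g
    · rw [sA_lt hi, map_mul, map_pow, hz, one_pow, one_mul, D.pA]
    · rw [sA_ge hi, ← D.pA, D.oA i (by omega)]
  · intro i
    by_cases hi : i < g
    · rw [sA_lt hi, map_mul, map_pow, hz, one_pow, one_mul, D.pB]
    · rw [sA_ge hi, ← D.pB, D.oB i (by omega)]
  · intro i
    by_cases hi : i + 1 < g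
    · rw [sC_lt hi, map_mul, map_pow, hz, one_pow, one_mul, D.pC]
    · rw [sC_ge hi, ← D.pC, D.oC i (by omega)]
  · intro i hi
    have h1 : A' i * B' i * A' i = B' i * A' i * B' i := D.brA i hi
    simp only [Br, sA_lt hi, zz_mul hc, h1]
  · intro i hi
    have h0 : i < g := by omega
    have h1 : B' i * C' i * B' i = C' i * B' i * C' i := D.brC i hi
    simp only [Br, sA_lt h0, sC_lt hi, zz_mul hc, h1]
  · intro i hi
    have h1 : B' (i + 1) * C' i * B' (i + 1) = C' i * B' (i + 1) * C' i := D.brC' i hi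
    simp only [Br, sA_lt hi, sC_lt hi, zz_mul hc, h1]
  · exact fun i hi => sA_ge (by omega)
  · exact fun i hi => sA_ge (by omega)
  · exact fun i hi => sC_ge (by omega)

theorem Sl_scale (hc : ∀ x, Commute x z) :
    Sl g (sA g A' z) (sA g B' z) (sC g C' z) = sS g (Sl g A' B' C') z := by
  funext i
  by_cases hi : i + 1 < g
  · have h0 : i < g := by omega
    have e1 : ∀ x y : E, z ^ 15 * x * (z ^ 12 * y)⁻¹ = z ^ 3 * (x * y⁻¹) := by
      intro x y
      have h1 : Commute (z ^ 12) (x * y⁻¹) := ((hc _).symm).pow_left _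
      calc z ^ 15 * x * (z ^ 12 * y)⁻¹ =
          z ^ 3 * (z ^ 12 * (x * y⁻¹) * (z ^ 12)⁻¹) := by group
        _ = z ^ 3 * (x * y⁻¹) := by rw [h1.eq, mul_inv_cancel_right]
    rw [Sl_lt hi, sS_lt hi, Sl_lt hi, ← e1]
    simp only [Wd, sA_lt h0, sA_lt hi, sC_lt hi, zz_mul hc, zz_pow hc]
  · rw [Sl_ge (by omega), sS_ge hi]

/-- The lantern relation for the lifts, up to one factor. -/
theorem exists_LnZ (h : CE π) (D : LD π g A B C A' B' C') (L : Lk g A B C S)
    (L' : Lk g A' B' C' (Sl g A' B' C')) (hS : ∀ i, g ≤ i + 1 → S i = 1)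
    (H : LnZ g A B C S 1) : ∃ z, π z = 1 ∧ LnZ g A' B' C' (Sl g A' B' C') z := by
  rcases Nat.lt_or_ge 2 g with hg | hg
  · have eA : (fun i => π (A' i)) = A := funext D.pA
    have eB : (fun i => π (B' i)) = B := funext D.pB
    have eC : (fun i => π (C' i)) = C := funext D.pC
    have eS : (fun i => π (Sl g A' B' C' i)) = S := funext (pS h L D hS)
    have hl := H 0 hg
    rw [one_mul] at hl
    obtain ⟨z, hz, hzl⟩ := exists_LtZ π (fun z hz x => (h.cen z hz x).symm) L' hg (by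
      rw [eA, eB, eC, eS, D.pC, D.pC, D.pA, D.pB, D.pA, D.pA]
      exact hl)
    refine ⟨z, hz, fun i hi => ?_⟩
    obtain ⟨F, h0, h1, -, -⟩ := hzl i 0 0 hi
    have h2 := H i hi
    rw [one_mul] at h2
    have e : π F = π (Ew A' B' C' i) := by
      have h3 := congrArg π h0
      simp only [map_mul, map_inv, map_pow, hz, one_mul, map_fa', eC, eS, D.pA, D.pB] at h3
      rw [map_Ew, eA, eB, eC]
      exact mul_left_cancel (h3.symm.trans h2)
    have e1 : F = Ew A' B' C' i :=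
      h.braid_unique (x := B' i) e h1.symm (Ew_br0 L' hi).symm
    rw [e1] at h0
    exact h0
  · exact ⟨1, map_one π, fun i hi => absurd hi (by omega)⟩

/-- **Exact lifts.** -/
theorem exact_lift (h : CE π) (L : Lk g A B C S) (hg : 0 < g) (hA : ∀ i, g ≤ i → A i = 1)
    (hB : ∀ i, g ≤ i → B i = 1) (hS : ∀ i, g ≤ i + 1 → S i = 1) (h01 : LC π (A 0) (A 1))
    (H : LnZ g A B C S 1) :
    ∃ A' B' C' : ℕ → E, LD π g A B C A' B' C' ∧ Lk g A' B' C' (Sl g A' B' C') ∧
      LnZ g A' B' C' (Sl g A' B' C') 1 := by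
  obtain ⟨a0, h0⟩ := h.sur (A 0)
  obtain ⟨A', B', C', D, -⟩ := exists_LD h hg L hA hB h0
  have hAA := LC_AA h L h01
  have L' := lk_lift h L hAA D hS
  obtain ⟨z, hz, hl⟩ := exists_LnZ h D L L' hS H
  have hc : ∀ x, Commute x z := fun x => (h.cen z hz x).symm
  have D2 := LD_scale h D hz
  refine ⟨_, _, _, D2, lk_lift h L hAA D2 hS, ?_⟩
  rw [Sl_scale hc]
  exact hl.scale hc

end Pool.MP_59b15d_al.H47P
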