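import Pool.Agent.H.MP_59b15d_al.h47e.Fb

set_option autoImplicit false

/-!
# The seventh twist of the lantern as a word in the standard generators

`Ew A B C i` satisfies the braid relation with `B i`, `B (i + 1)`, `B (i + 2)`; this uses only the
braid and commutation relations.
-/

namespace Pool.MP_59b15d_al.H47P

open Pool.MP_59b15d_al.H95E Pool.MP_59b15d_al.H93E Pool.MP_59b15d_al.H47E

variable {Γ : Type*} [Group Γ]

/-- The conjugating element. -/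
def Ge (A B C : ℕ → Γ) (j : ℕ) : Γ :=
  B j * (A j * B j * (C j)⁻¹ * (B j)⁻¹ * (A j)⁻¹)

/-- The seventh twist of the lantern of the handles `i`, `i + 1`, `i + 2`. -/
def Ew (A B C : ℕ → Γ) (i : ℕ) : Γ := Ge A B C (i + 1) * C i * (Ge A B C (i + 1))⁻¹

/-! ### Braid relations -/

/-- `a b c b⁻¹ a⁻¹` commutes with `b` for a chain `a`, `b`, `c`. -/
theorem chain_comm {a b c : Γ} (hab : a * b * a = b * a * b) (hbc : b * c * b = c * b * c)
    (hac : a * c = c * a) : Commute (a * b * c * b⁻¹ * a⁻¹) b := by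
  -- `b c b⁻¹ = c⁻¹ b c`, `b⁻¹ a b = a b a⁻¹`
  have h1 : b * c * b⁻¹ = c⁻¹ * b * c := by
    rw [mul_inv_eq_iff_eq_mul, mul_assoc, mul_assoc, eq_inv_mul_iff_mul_eq, ← mul_assoc,
      ← mul_assoc, ← hbc]
  have h2 : a * c⁻¹ = c⁻¹ * a := by
    rw [mul_inv_eq_iff_eq_mul, mul_assoc, hac, inv_mul_cancel_left]
  have h3 : a⁻¹ * b * a = b * a * b⁻¹ := by
    rw [eq_mul_inv_iff_mul_eq, mul_assoc, mul_assoc, inv_mul_eq_iff_eq_mul, ← mul_assoc,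
      ← mul_assoc, hab]
  have h4 : a * b * a⁻¹ = b⁻¹ * a * b := by
    rw [mul_inv_eq_iff_eq_mul, mul_assoc, mul_assoc, eq_inv_mul_iff_mul_eq, ← mul_assoc,
      ← mul_assoc, ← hab]
  have h5 : c * b * c⁻¹ = b⁻¹ * c * b := by
    rw [mul_inv_eq_iff_eq_mul, mul_assoc, mul_assoc, eq_inv_mul_iff_mul_eq, ← mul_assoc,
      ← mul_assoc, hbc]
  have h6 : c * a⁻¹ = a⁻¹ * c := by
    rw [mul_inv_eq_iff_eq_mul, mul_assoc, ← hac, inv_mul_cancel_left]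
  -- the element is `c⁻¹ (b⁻¹ a b) c`
  have h7 : a * b * c * b⁻¹ * a⁻¹ = c⁻¹ * (b⁻¹ * a * b) * c := by
    calc a * b * c * b⁻¹ * a⁻¹ = a * (b * c * b⁻¹) * a⁻¹ := by group
      _ = a * (c⁻¹ * b * c) * a⁻¹ := by rw [h1]
      _ = (a * c⁻¹) * b * (c * a⁻¹) := by group
      _ = (c⁻¹ * a) * b * (a⁻¹ * c) := by rw [h2, h6]
      _ = c⁻¹ * (a * b * a⁻¹) * c := by group
      _ = _ := by rw [h4]
  -- conjugating by `b`
  have h8 : b * (c⁻¹ * (b⁻¹ * a * b) * c) = (c⁻¹ * (b⁻¹ * a * b) * c) * b := by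
    have h9 : b * c⁻¹ * b⁻¹ = c⁻¹ * b⁻¹ * c := by
      have h10 : b * c⁻¹ * b⁻¹ = (b * c * b⁻¹)⁻¹ := by group
      rw [h10, h1]; group
    have h11 : b⁻¹ * c * b = c * b * c⁻¹ := h5.symm
    calc b * (c⁻¹ * (b⁻¹ * a * b) * c) = (b * c⁻¹ * b⁻¹) * a * (b * c) := by group
      _ = (c⁻¹ * b⁻¹ * c) * a * (b * c) := by rw [h9]
      _ = c⁻¹ * b⁻¹ * (c * a) * b * c := by group
      _ = c⁻¹ * b⁻¹ * (a * c) * b * c := by rw [hac]
      _ = c⁻¹ * b⁻¹ * a * (c * b * c) := by group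
      _ = c⁻¹ * b⁻¹ * a * (b * c * b) := by rw [hbc]
      _ = _ := by group
  rw [h7]
  exact h8.symm

/-- Another word for the same element. -/
theorem chain_eq {a b c x : Γ} (hbc : b * c * b = c * b * c)
    (hxb : x * b * x = b * x * b) (hax : a * x = x * a) (hxc : x * c = c * x) :
    (b * (a * b * c⁻¹ * b⁻¹ * a⁻¹)) * x * (b * (a * b * c⁻¹ * b⁻¹ * a⁻¹))⁻¹ =
      (b * a * b * x * b) * c * (b * a * b * x * b)⁻¹ := by
  have h1 : a⁻¹ * x * a = x := by rw [mul_assoc, ← hax, inv_mul_cancel_left]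
  have h2 : b⁻¹ * x * b = x * b * x⁻¹ := by
    rw [eq_mul_inv_iff_mul_eq, mul_assoc, mul_assoc, inv_mul_eq_iff_eq_mul, ← mul_assoc,
      ← mul_assoc, hxb]
  have h3 : c⁻¹ * b * c = b * c * b⁻¹ := by
    rw [eq_mul_inv_iff_mul_eq, mul_assoc, mul_assoc, inv_mul_eq_iff_eq_mul, ← mul_assoc,
      ← mul_assoc, ← hbc]
  have h4 : c⁻¹ * x = x * c⁻¹ := by
    rw [inv_mul_eq_iff_eq_mul, ← mul_assoc, ← hxc, mul_inv_cancel_right]
  have h5 : x⁻¹ * c = c * x⁻¹ := by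
    rw [inv_mul_eq_iff_eq_mul, ← mul_assoc, hxc, mul_inv_cancel_right]
  calc (b * (a * b * c⁻¹ * b⁻¹ * a⁻¹)) * x * (b * (a * b * c⁻¹ * b⁻¹ * a⁻¹))⁻¹ =
      b * a * b * c⁻¹ * b⁻¹ * (a⁻¹ * x * a) * b * c * b⁻¹ * a⁻¹ * b⁻¹ := by group
    _ = b * a * b * c⁻¹ * b⁻¹ * x * b * c * b⁻¹ * a⁻¹ * b⁻¹ := by rw [h1]
    _ = b * a * b * c⁻¹ * (b⁻¹ * x * b) * c * b⁻¹ * a⁻¹ * b⁻¹ := by group
    _ = b * a * b * c⁻¹ * (x * b * x⁻¹) * c * b⁻¹ * a⁻¹ * b⁻¹ := by rw [h2]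
    _ = b * a * b * (c⁻¹ * x) * b * (x⁻¹ * c) * b⁻¹ * a⁻¹ * b⁻¹ := by group
    _ = b * a * b * (x * c⁻¹) * b * (c * x⁻¹) * b⁻¹ * a⁻¹ * b⁻¹ := by rw [h4, h5]
    _ = b * a * b * x * (c⁻¹ * b * c) * x⁻¹ * b⁻¹ * a⁻¹ * b⁻¹ := by group
    _ = b * a * b * x * (b * c * b⁻¹) * x⁻¹ * b⁻¹ * a⁻¹ * b⁻¹ := by rw [h3]
    _ = _ := by group

variable {g : ℕ} {A B C S : ℕ → Γ}

theorem Ge_B (L : Lk g A B C S) {j : ℕ} (hj : j + 1 < g) : Commute (Ge A B C j) (B j) := by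
  have h1 : Commute (A j * B j * C j * (B j)⁻¹ * (A j)⁻¹) (B j) :=
    chain_comm (L.brA j) (L.brC j hj) (L.AC j j)
  have h2 : (A j * B j * C j * (B j)⁻¹ * (A j)⁻¹)⁻¹ =
      A j * B j * (C j)⁻¹ * (B j)⁻¹ * (A j)⁻¹ := by group
  have h3 := h1.inv_left
  rw [h2] at h3
  exact (Commute.refl (B j)).mul_left h3

theorem Ge_Bi (L : Lk g A B C S) {i : ℕ} : Commute (Ge A B C (i + 1)) (B i) := by
  have hA : Commute (A (i + 1)) (B i) := L.AB _ _ (by omega)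
  have hB : Commute (B (i + 1)) (B i) := L.BB _ _
  have hC : Commute (C (i + 1)) (B i) := (L.BC _ _ (by omega) (by omega)).symm
  exact hB.mul_left ((((hA.mul_left hB).mul_left hC.inv_left).mul_left hB.inv_left).mul_left
    hA.inv_left)

/-- The second word for `Ew`. -/
theorem Ew_eq (L : Lk g A B C S) {i : ℕ} (hi : i + 2 < g) :
    Ew A B C i = (B (i + 1) * A (i + 1) * B (i + 1) * C i * B (i + 1)) * C (i + 1) *
      (B (i + 1) * A (i + 1) * B (i + 1) * C i * B (i + 1))⁻¹ :=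
  chain_eq (L.brC (i + 1) (by omega)) (L.brC' i (by omega)).symm
    (L.AC (i + 1) i) (L.CC i (i + 1))

theorem Ew_br0 (L : Lk g A B C S) {i : ℕ} (hi : i + 2 < g) :
    Ew A B C i * B i * Ew A B C i = B i * Ew A B C i * B i :=
  (braid_conj (Ge_Bi L) (L.brC i (by omega))).symm

theorem Ew_br1 (L : Lk g A B C S) {i : ℕ} (hi : i + 2 < g) :
    Ew A B C i * B (i + 1) * Ew A B C i = B (i + 1) * Ew A B C i * B (i + 1) :=
  (braid_conj (Ge_B L (by omega)) (L.brC' i (by omega))).symm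

theorem Ew_br2 (L : Lk g A B C S) {i : ℕ} (hi : i + 2 < g) :
    Ew A B C i * B (i + 2) * Ew A B C i = B (i + 2) * Ew A B C i * B (i + 2) := by
  have hA : Commute (A (i + 1)) (B (i + 2)) := L.AB _ _ (by omega)
  have hB : Commute (B (i + 1)) (B (i + 2)) := L.BB _ _
  have hC : Commute (C i) (B (i + 2)) := (L.BC _ _ (by omega) (by omega)).symm
  rw [Ew_eq L hi]
  exact (braid_conj ((((hB.mul_left hA).mul_left hB).mul_left hC).mul_left hB)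
    (L.brC' (i + 1) (by omega))).symm

end Pool.MP_59b15d_al.H47P
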