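import Pool.Agent.H.MP_59b15d_al.h47e.Lan
import Pool.Agent.H.MP_59b15d_al.h47p.Ew

set_option autoImplicit false

/-!
# The lantern relation up to a central element
-/

namespace Pool.MP_59b15d_al.H47P

open Pool.MP_59b15d_al.H95E Pool.MP_59b15d_al.H93E Pool.MP_59b15d_al.H47E

variable {Γ : Type*} [Group Γ]

/-- The lantern relation for the handles `l`, `l + m + 1`, `l + m + n + 2` up to the factor `z`. -/
def LtZ (A B C S : ℕ → Γ) (z : Γ) (l m n : ℕ) : Prop :=
  ∃ E, fa C S l m * ((A (l + m + 1) * B (l + m + 1)) ^ 3 * fa C S (l + m + 1) n *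
      ((A (l + m + 1) * B (l + m + 1)) ^ 3)⁻¹) * fa C S l (m + n + 1) =
    z * (A l * A (l + m + 1) * A (l + m + n + 2) * E) ∧
    E * B l * E = B l * E * B l ∧
    E * B (l + m + 1) * E = B (l + m + 1) * E * B (l + m + 1) ∧
    E * B (l + m + n + 2) * E = B (l + m + n + 2) * E * B (l + m + n + 2)

variable {g : ℕ} {A B C S : ℕ → Γ} {z : Γ}

theorem LtZ_right (L : Lk g A B C S) (hz : ∀ x, Commute x z) {l m n : ℕ}
    (h : l + m + n + 3 < g) (H : LtZ A B C S z l m n) : LtZ A B C S z l m (n + 1) := by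
  obtain ⟨E, h0, h1, h2, h3⟩ := H
  have k1 : l + m + (n + 1) + 2 = l + m + n + 2 + 1 := by omega
  have k2 : m + (n + 1) + 1 = m + n + 1 + 1 := by omega
  have hS : l + m + n + 2 + 1 < g := by omega
  have sA : SemiconjBy (S (l + m + n + 2)) (A (l + m + n + 2 + 1)) (A (l + m + n + 2)) :=
    L.SA' _ hS
  have sB : SemiconjBy (S (l + m + n + 2)) (B (l + m + n + 2 + 1)) (B (l + m + n + 2)) :=
    L.SB' _ hS
  have sAl : SemiconjBy (S (l + m + n + 2)) (A l) (A l) := L.SAo _ _ (by omega) (by omega)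
  have sBl : SemiconjBy (S (l + m + n + 2)) (B l) (B l) := L.SBo _ _ (by omega) (by omega)
  have sAm : SemiconjBy (S (l + m + n + 2)) (A (l + m + 1)) (A (l + m + 1)) :=
    L.SAo _ _ (by omega) (by omega)
  have sBm : SemiconjBy (S (l + m + n + 2)) (B (l + m + 1)) (B (l + m + 1)) :=
    L.SBo _ _ (by omega) (by omega)
  have f1 : SemiconjBy (S (l + m + n + 2)) (fa C S l m) (fa C S l m) :=
    fa_Sr L m hS (by omega)
  have f2 : SemiconjBy (S (l + m + n + 2)) (fa C S (l + m + 1) (n + 1))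
      (fa C S (l + m + 1) n) := by
    have e : l + m + 1 + n + 1 = l + m + n + 2 := by omega
    rw [← e]
    exact fa_right C S (l + m + 1) n
  have f3 : SemiconjBy (S (l + m + n + 2)) (fa C S l (m + n + 1 + 1))
      (fa C S l (m + n + 1)) := by
    have e : l + (m + n + 1) + 1 = l + m + n + 2 := by omega
    rw [← e]
    exact fa_right C S l (m + n + 1)
  have sE : SemiconjBy (S (l + m + n + 2)) ((S (l + m + n + 2))⁻¹ * E * S (l + m + n + 2)) E :=
    sc_of_eqi rfl
  have sio := io_sc sAm sBm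
  have sz : SemiconjBy (S (l + m + n + 2)) z z := hz _
  refine ⟨(S (l + m + n + 2))⁻¹ * E * S (l + m + n + 2), ?_, ?_, ?_, ?_⟩
  · rw [k1, k2]
    exact sc_cancel ((f1.mul_right ((sio.mul_right f2).mul_right sio.inv_right)).mul_right f3)
      (sz.mul_right (((sAl.mul_right sAm).mul_right sA).mul_right sE)) h0
  · exact braid_sc sBl sE h1
  · exact braid_sc sBm sE h2
  · rw [k1]
    exact braid_sc sB sE h3

theorem LtZ_mid (L : Lk g A B C S) (hz : ∀ x, Commute x z) {l m n : ℕ}
    (h : l + m + n + 3 < g) (H : LtZ A B C S z l m (n + 1)) : LtZ A B C S z l (m + 1) n := by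
  obtain ⟨E, h0, h1, h2, h3⟩ := H
  have k1 : l + m + (n + 1) + 2 = l + m + n + 3 := by omega
  have k1' : l + (m + 1) + n + 2 = l + m + n + 3 := by omega
  have k2 : m + (n + 1) + 1 = m + n + 2 := by omega
  have k2' : m + 1 + n + 1 = m + n + 2 := by omega
  have k3 : l + (m + 1) + 1 = l + m + 1 + 1 := by omega
  rw [k1, k2] at h0
  rw [k1] at h3
  have hS : l + m + 1 + 1 < g := by omega
  have sA : SemiconjBy (S (l + m + 1)) (A (l + m + 1 + 1)) (A (l + m + 1)) := L.SA' _ hS
  have sB : SemiconjBy (S (l + m + 1)) (B (l + m + 1 + 1)) (B (l + m + 1)) := L.SB' _ hS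
  have sAl : SemiconjBy (S (l + m + 1)) (A l) (A l) := L.SAo _ _ (by omega) (by omega)
  have sBl : SemiconjBy (S (l + m + 1)) (B l) (B l) := L.SBo _ _ (by omega) (by omega)
  have sAk : SemiconjBy (S (l + m + 1)) (A (l + m + n + 3)) (A (l + m + n + 3)) :=
    L.SAo _ _ (by omega) (by omega)
  have sBk : SemiconjBy (S (l + m + 1)) (B (l + m + n + 3)) (B (l + m + n + 3)) :=
    L.SBo _ _ (by omega) (by omega)
  have f1 : SemiconjBy (S (l + m + 1)) (fa C S l (m + 1)) (fa C S l m) := fa_right C S l m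
  have f2 : SemiconjBy (S (l + m + 1)) (fa C S (l + m + 1 + 1) n)
      (fa C S (l + m + 1) (n + 1)) := fa_left L n (by omega)
  have f3 : SemiconjBy (S (l + m + 1)) (fa C S l (m + n + 2)) (fa C S l (m + n + 2)) :=
    fa_Sm L (m + n + 2) (by omega) (by omega) (by omega)
  have sE : SemiconjBy (S (l + m + 1)) ((S (l + m + 1))⁻¹ * E * S (l + m + 1)) E :=
    sc_of_eqi rfl
  have sio := io_sc sA sB
  have sz : SemiconjBy (S (l + m + 1)) z z := hz _
  refine ⟨(S (l + m + 1))⁻¹ * E * S (l + m + 1), ?_, ?_, ?_, ?_⟩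
  · rw [k1', k2', k3]
    exact sc_cancel ((f1.mul_right ((sio.mul_right f2).mul_right sio.inv_right)).mul_right f3)
      (sz.mul_right (((sAl.mul_right sA).mul_right sAk).mul_right sE)) h0
  · exact braid_sc sBl sE h1
  · rw [k3]
    exact braid_sc sB sE h2
  · rw [k1']
    exact braid_sc sBk sE h3

theorem LtZ_left (L : Lk g A B C S) (hz : ∀ x, Commute x z) {l m n : ℕ}
    (h : l + m + n + 3 < g) (H : LtZ A B C S z l (m + 1) n) : LtZ A B C S z (l + 1) m n := by
  obtain ⟨E, h0, h1, h2, h3⟩ := H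
  have k1 : l + (m + 1) + n + 2 = l + m + n + 3 := by omega
  have k1' : l + 1 + m + n + 2 = l + m + n + 3 := by omega
  have k2 : m + 1 + n + 1 = m + n + 1 + 1 := by omega
  have k3 : l + (m + 1) + 1 = l + m + 2 := by omega
  have k3' : l + 1 + m + 1 = l + m + 2 := by omega
  rw [k1, k2, k3] at h0
  rw [k3] at h2
  rw [k1] at h3
  have hS : l + 1 < g := by omega
  have sA : SemiconjBy (S l) (A (l + 1)) (A l) := L.SA' _ hS
  have sB : SemiconjBy (S l) (B (l + 1)) (B l) := L.SB' _ hS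
  have sAm : SemiconjBy (S l) (A (l + m + 2)) (A (l + m + 2)) := L.SAo _ _ (by omega) (by omega)
  have sBm : SemiconjBy (S l) (B (l + m + 2)) (B (l + m + 2)) := L.SBo _ _ (by omega) (by omega)
  have sAk : SemiconjBy (S l) (A (l + m + n + 3)) (A (l + m + n + 3)) :=
    L.SAo _ _ (by omega) (by omega)
  have sBk : SemiconjBy (S l) (B (l + m + n + 3)) (B (l + m + n + 3)) :=
    L.SBo _ _ (by omega) (by omega)
  have f1 : SemiconjBy (S l) (fa C S (l + 1) m) (fa C S l (m + 1)) := fa_left L m (by omega)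
  have f2 : SemiconjBy (S l) (fa C S (l + m + 2) n) (fa C S (l + m + 2) n) :=
    fa_Sl L n (by omega) (by omega)
  have f3 : SemiconjBy (S l) (fa C S (l + 1) (m + n + 1)) (fa C S l (m + n + 1 + 1)) :=
    fa_left L (m + n + 1) (by omega)
  have sE : SemiconjBy (S l) ((S l)⁻¹ * E * S l) E := sc_of_eqi rfl
  have sio := io_sc sAm sBm
  have sz : SemiconjBy (S l) z z := hz _
  refine ⟨(S l)⁻¹ * E * S l, ?_, ?_, ?_, ?_⟩
  · rw [k1', k3']
    exact sc_cancel ((f1.mul_right ((sio.mul_right f2).mul_right sio.inv_right)).mul_right f3)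
      (sz.mul_right (((sA.mul_right sAm).mul_right sAk).mul_right sE)) h0
  · exact braid_sc sB sE h1
  · rw [k3']
    exact braid_sc sBm sE h2
  · rw [k1']
    exact braid_sc sBk sE h3

/-- The same factor for all triples of handles. -/
theorem LtZ_all (L : Lk g A B C S) (hz : ∀ x, Commute x z) (H : LtZ A B C S z 0 0 0) :
    ∀ l m n, l + m + n + 2 < g → LtZ A B C S z l m n := by
  intro l
  induction l with
  | zero =>
    intro m
    induction m with
    | zero =>
      intro n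
      induction n with
      | zero => exact fun _ => H
      | succ n ih => exact fun h => LtZ_right L hz (by omega) (ih (by omega))
    | succ m ih =>
      intro n h
      exact LtZ_mid L hz (by omega) (ih (n + 1) (by omega))
  | succ l ih =>
    intro m n h
    exact LtZ_left L hz (by omega) (ih (m + 1) n (by omega))

section lift

variable {Γ' : Type*} [Group Γ'] (P : Γ →* Γ')

theorem map_fa' (C S : ℕ → Γ) (l : ℕ) :
    ∀ n, P (fa C S l n) = fa (fun i => P (C i)) (fun i => P (S i)) l n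
  | 0 => rfl
  | n + 1 => by
    rw [fa_succ, fa_succ, map_mul, map_mul, map_inv, map_fa' C S l n]

theorem map_Ew (A B C : ℕ → Γ) (i : ℕ) :
    P (Ew A B C i) = Ew (fun i => P (A i)) (fun i => P (B i)) (fun i => P (C i)) i := by
  simp only [Ew, Ge, map_mul, map_inv]

/-- If the lantern relation holds below, it holds above up to a central element which does not
depend on the handles. -/
theorem exists_LtZ (hP : ∀ z, P z = 1 → ∀ x, Commute x z) (L : Lk g A B C S) (hg : 2 < g)
    (h : P (C 0) * ((P (A 1) * P (B 1)) ^ 3 * P (C 1) * ((P (A 1) * P (B 1)) ^ 3)⁻¹) *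
      fa (fun i => P (C i)) (fun i => P (S i)) 0 1 =
      P (A 0) * P (A 1) * P (A 2) *
        Ew (fun i => P (A i)) (fun i => P (B i)) (fun i => P (C i)) 0) :
    ∃ z, P z = 1 ∧ ∀ l m n, l + m + n + 2 < g → LtZ A B C S z l m n := by
  obtain ⟨z, hz⟩ : ∃ z, z = C 0 * ((A 1 * B 1) ^ 3 * C 1 * ((A 1 * B 1) ^ 3)⁻¹) * fa C S 0 1 *
    (A 0 * A 1 * A 2 * Ew A B C 0)⁻¹ := ⟨_, rfl⟩
  have h1 : P z = 1 := by
    rw [hz, map_mul, map_inv, map_mul, map_mul, map_mul, map_mul, map_mul, map_mul, map_mul,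
      map_inv, map_pow, map_mul, map_fa', map_Ew, h, mul_inv_cancel]
  refine ⟨z, h1, LtZ_all L (hP z h1) ⟨Ew A B C 0, ?_, Ew_br0 L hg, Ew_br1 L hg, Ew_br2 L hg⟩⟩
  have h2 : C 0 * ((A 1 * B 1) ^ 3 * C 1 * ((A 1 * B 1) ^ 3)⁻¹) * fa C S 0 1 =
      z * (A 0 * A 1 * A 2 * Ew A B C 0) := by
    rw [hz, inv_mul_cancel_right]
  exact h2

end lift

end Pool.MP_59b15d_al.H47P
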