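import Pool.Agent.H.MP_59b15d_al.h47p.Lz

set_option autoImplicit false

/-!
# Multiplying all the twists by a central element

`sA g A z`, `sC g C z`, `sS g S z` are the twists and the exchanges multiplied by `z`, `z`,
`z ^ 3`. The relations `Lk`, `Bp` are homogeneous; the lantern relation has degree one, so the
factor `z` in it disappears.
-/

namespace Pool.MP_59b15d_al.H47P

open Pool.MP_59b15d_al.H95E Pool.MP_59b15d_al.H93E Pool.MP_59b15d_al.H47E

variable {Γ : Type*} [Group Γ] {z : Γ}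

theorem zz_mul (hz : ∀ x, Commute x z) (m n : ℕ) (x y : Γ) :
    z ^ m * x * (z ^ n * y) = z ^ (m + n) * (x * y) := by
  rw [((hz x).pow_right n).mul_mul_mul_comm, pow_add]

theorem zz_pow (hz : ∀ x, Commute x z) (m n : ℕ) (x : Γ) :
    (z ^ m * x) ^ n = z ^ (m * n) * x ^ n := by
  rw [((hz x).symm.pow_left m).mul_pow, pow_mul]

/-- A conjugate is not changed when the conjugating element is multiplied by a central one. -/
theorem zz_conj (hz : ∀ x, Commute x z) (m : ℕ) (x y : Γ) :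
    z ^ m * x * y * (z ^ m * x)⁻¹ = x * y * x⁻¹ := by
  have h : Commute (z ^ m) (x * y * x⁻¹) := ((hz _).symm).pow_left m
  calc z ^ m * x * y * (z ^ m * x)⁻¹ = z ^ m * (x * y * x⁻¹) * (z ^ m)⁻¹ := by group
    _ = x * y * x⁻¹ := by rw [h.eq, mul_inv_cancel_right]

theorem zz_conj1 (hz : ∀ x, Commute x z) (m : ℕ) (x y : Γ) :
    x * (z ^ m * y) * x⁻¹ = z ^ m * (x * y * x⁻¹) := by
  have h : Commute x (z ^ m) := (hz x).pow_right m
  rw [← mul_assoc x, h.eq, mul_assoc, mul_assoc, mul_assoc]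

theorem zz_conj2 (hz : ∀ x, Commute x z) (m : ℕ) (x y : Γ) :
    x⁻¹ * (z ^ m * y) * x = z ^ m * (x⁻¹ * y * x) := by
  have h := zz_conj1 hz m x⁻¹ y
  rwa [inv_inv] at h

theorem zz_conj3 (hz : ∀ x, Commute x z) (m : ℕ) (x y : Γ) :
    (z ^ m * x)⁻¹ * y * (z ^ m * x) = x⁻¹ * y * x := by
  have h : Commute (z ^ m)⁻¹ y := ((hz _).symm.pow_left m).inv_left
  calc (z ^ m * x)⁻¹ * y * (z ^ m * x) = x⁻¹ * ((z ^ m)⁻¹ * y) * z ^ m * x := by group
    _ = x⁻¹ * y * x := by rw [h.eq]; group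

theorem zz_com (hz : ∀ x, Commute x z) (m n : ℕ) {x y : Γ} (h : Commute x y) :
    Commute (z ^ m * x) (z ^ n * y) := by
  have h1 : Commute (z ^ m) (z ^ n * y) := ((hz _).symm).pow_left m
  have h2 : Commute x (z ^ n * y) := ((hz x).pow_right n).mul_right h
  exact h1.mul_left h2

variable {g : ℕ} {A B C S : ℕ → Γ}

/-- The twists `A`, `B` multiplied by `z`. -/
def sA (g : ℕ) (A : ℕ → Γ) (z : Γ) (i : ℕ) : Γ := if i < g then z ^ 1 * A i else 1

/-- The twists `C` multiplied by `z`. -/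
def sC (g : ℕ) (C : ℕ → Γ) (z : Γ) (i : ℕ) : Γ := if i + 1 < g then z ^ 1 * C i else 1

/-- The exchanges multiplied by `z ^ 3`. -/
def sS (g : ℕ) (S : ℕ → Γ) (z : Γ) (i : ℕ) : Γ := if i + 1 < g then z ^ 3 * S i else 1

theorem sA_lt {i : ℕ} (h : i < g) : sA g A z i = z ^ 1 * A i := by rw [sA, if_pos h]

theorem sA_ge {i : ℕ} (h : ¬ i < g) : sA g A z i = 1 := by rw [sA, if_neg h]

theorem sC_lt {i : ℕ} (h : i + 1 < g) : sC g C z i = z ^ 1 * C i := by rw [sC, if_pos h]

theorem sC_ge {i : ℕ} (h : ¬ i + 1 < g) : sC g C z i = 1 := by rw [sC, if_neg h]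

theorem sS_lt {i : ℕ} (h : i + 1 < g) : sS g S z i = z ^ 3 * S i := by rw [sS, if_pos h]

theorem sS_ge {i : ℕ} (h : ¬ i + 1 < g) : sS g S z i = 1 := by rw [sS, if_neg h]

theorem com_sA (hz : ∀ x, Commute x z) {x : Γ} (m : ℕ) {i : ℕ} (h : Commute x (A i)) :
    Commute (z ^ m * x) (sA g A z i) := by
  by_cases hi : i < g
  · rw [sA_lt hi]
    exact zz_com hz m 1 h
  · rw [sA_ge hi]
    exact Commute.one_right _

theorem com_sC (hz : ∀ x, Commute x z) {x : Γ} (m : ℕ) {i : ℕ} (h : Commute x (C i)) :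
    Commute (z ^ m * x) (sC g C z i) := by
  by_cases hi : i + 1 < g
  · rw [sC_lt hi]
    exact zz_com hz m 1 h
  · rw [sC_ge hi]
    exact Commute.one_right _

theorem sA_sA (hz : ∀ x, Commute x z) {i j : ℕ} (h : Commute (A i) (B j)) :
    Commute (sA g A z i) (sA g B z j) := by
  by_cases hi : i < g
  · rw [sA_lt hi]
    exact com_sA hz 1 h
  · rw [sA_ge hi]
    exact Commute.one_left _

theorem sA_sC (hz : ∀ x, Commute x z) {i j : ℕ} (h : Commute (A i) (C j)) :
    Commute (sA g A z i) (sC g C z j) := by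
  by_cases hi : i < g
  · rw [sA_lt hi]
    exact com_sC hz 1 h
  · rw [sA_ge hi]
    exact Commute.one_left _

theorem sC_sC (hz : ∀ x, Commute x z) {i j : ℕ} (h : Commute (C i) (C j)) :
    Commute (sC g C z i) (sC g C z j) := by
  by_cases hi : i + 1 < g
  · rw [sC_lt hi]
    exact com_sC hz 1 h
  · rw [sC_ge hi]
    exact Commute.one_left _

theorem sS_sA (hz : ∀ x, Commute x z) {i j : ℕ} (h : Commute (S i) (A j)) :
    Commute (sS g S z i) (sA g A z j) := by
  by_cases hi : i + 1 < g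
  · rw [sS_lt hi]
    exact com_sA hz 3 h
  · rw [sS_ge hi]
    exact Commute.one_left _

theorem sS_sC (hz : ∀ x, Commute x z) {i j : ℕ} (h : Commute (S i) (C j)) :
    Commute (sS g S z i) (sC g C z j) := by
  by_cases hi : i + 1 < g
  · rw [sS_lt hi]
    exact com_sC hz 3 h
  · rw [sS_ge hi]
    exact Commute.one_left _

theorem Lk_scale (L : Lk g A B C S) (hz : ∀ x, Commute x z) :
    Lk g (sA g A z) (sA g B z) (sC g C z) (sS g S z) where
  AA i j := sA_sA hz (L.AA i j)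
  AC i j := sA_sC hz (L.AC i j)
  CC i j := sC_sC hz (L.CC i j)
  AB i j h := sA_sA hz (L.AB i j h)
  BB i j := sA_sA hz (L.BB i j)
  BC i j h h' := sA_sC hz (L.BC i j h h')
  brA i := by
    by_cases h : i < g
    · simp only [sA_lt h, zz_mul hz, L.brA i]
    · simp only [sA_ge h]
  brC i h := by
    have h0 : i < g := by omega
    simp only [sA_lt h0, sC_lt h, zz_mul hz, L.brC i h]
  brC' i h := by simp only [sA_lt h, sC_lt h, zz_mul hz, L.brC' i h]
  SA i h := by
    have h0 : i < g := by omega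
    simp only [sA_lt h0, sA_lt h, sS_lt h, zz_mul hz, L.SA i h]
  SA' i h := by
    have h0 : i < g := by omega
    simp only [sA_lt h0, sA_lt h, sS_lt h, zz_mul hz, L.SA' i h]
  SB i h := by
    have h0 : i < g := by omega
    simp only [sA_lt h0, sA_lt h, sS_lt h, zz_mul hz, L.SB i h]
  SB' i h := by
    have h0 : i < g := by omega
    simp only [sA_lt h0, sA_lt h, sS_lt h, zz_mul hz, L.SB' i h]
  SAo i j h h' := sS_sA hz (L.SAo i j h h')
  SBo i j h h' := sS_sA hz (L.SBo i j h h')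
  SCo i j h h' h'' := sS_sC hz (L.SCo i j h h' h'')
  SSC i h := by
    have h1 : i + 1 < g := by omega
    have h2 : i + 1 + 1 < g := by omega
    simp only [sC_lt h1, sC_lt h2, sS_lt h1, sS_lt h2, zz_mul hz, L.SSC i h]
  SSC' i h := by
    have h1 : i + 1 < g := by omega
    have h2 : i + 1 + 1 < g := by omega
    simp only [sC_lt h1, sC_lt h2, sS_lt h1, sS_lt h2, zz_mul hz, L.SSC' i h]
  gar i h := by
    have h0 : i < g := by omega
    simp only [sA_lt h0, sA_lt h, sS_lt h, sC_lt h, zz_mul hz, zz_pow hz, L.gar i h]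
  Cout i h := sC_ge (by omega)

/-- The front arcs are multiplied by `z`. -/
theorem fa_scale (hz : ∀ x, Commute x z) {l : ℕ} (n : ℕ) (h : l + n + 1 < g) :
    fa (sC g C z) (sS g S z) l n = z ^ 1 * fa C S l n := by
  induction n with
  | zero => exact sC_lt h
  | succ n ih =>
    rw [fa_succ, fa_succ, ih (by omega), sS_lt (by omega), zz_conj3 hz, zz_conj2 hz]

theorem Ge_scale (hz : ∀ x, Commute x z) {j : ℕ} (h : j + 1 < g) :
    Ge (sA g A z) (sA g B z) (sC g C z) j = Ge A B C j := by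
  have h0 : j < g := by omega
  have e : ∀ a b c : Γ, b * (a * b * c⁻¹ * b⁻¹ * a⁻¹) = b * a * b * (a * b * c)⁻¹ := by
    intro a b c
    group
  have e1 : ∀ x y : Γ, z ^ (1 + 1 + 1) * x * (z ^ (1 + 1 + 1) * y)⁻¹ = x * y⁻¹ := by
    intro x y
    have h1 : Commute (z ^ (1 + 1 + 1)) (x * y⁻¹) := ((hz _).symm).pow_left _
    calc z ^ (1 + 1 + 1) * x * (z ^ (1 + 1 + 1) * y)⁻¹ =
        z ^ (1 + 1 + 1) * (x * y⁻¹) * (z ^ (1 + 1 + 1))⁻¹ := by group
      _ = x * y⁻¹ := by rw [h1.eq, mul_inv_cancel_right]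
  rw [Ge, Ge, e, e (A j)]
  simp only [sA_lt h0, sC_lt h, zz_mul hz, e1]

theorem Ew_scale (hz : ∀ x, Commute x z) {i : ℕ} (h : i + 2 < g) :
    Ew (sA g A z) (sA g B z) (sC g C z) i = z ^ 1 * Ew A B C i := by
  rw [Ew, Ew, Ge_scale hz (by omega), sC_lt (by omega), zz_conj1 hz]

/-- The lantern relation becomes exact. -/
theorem Lt_scale (hz : ∀ x, Commute x z) {l m n : ℕ} (h : l + m + n + 2 < g)
    (H : LtZ A B C S z l m n) :
    Lt (sA g A z) (sA g B z) (sC g C z) (sS g S z) l m n := by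
  obtain ⟨E, h0, h1, h2, h3⟩ := H
  have k0 : l < g := by omega
  have k1 : l + m + 1 < g := by omega
  refine ⟨z ^ 1 * E, ?_, ?_, ?_, ?_⟩
  · have e1 := fa_scale hz (C := C) (S := S) (l := l) m (g := g) (by omega)
    have e2 := fa_scale hz (C := C) (S := S) (l := l + m + 1) n (g := g) (by omega)
    have e3 := fa_scale hz (C := C) (S := S) (l := l) (m + n + 1) (g := g) (by omega)
    rw [e1, e2, e3, sA_lt k0, sA_lt k1, sA_lt k1, sA_lt h]
    simp only [zz_mul hz 1 1 (A (l + m + 1)) (B (l + m + 1)),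
      zz_pow hz (1 + 1) 3 (A (l + m + 1) * B (l + m + 1))]
    rw [zz_conj hz, zz_conj1 hz]
    simp only [zz_mul hz, h0]
    rw [← mul_assoc, ← pow_succ]
  · simp only [sA_lt k0, zz_mul hz, h1]
  · simp only [sA_lt k1, zz_mul hz, h2]
  · simp only [sA_lt h, zz_mul hz, h3]

/-- The lantern relation with its seventh twist as a word, up to the factor `z`. -/
def LnZ (g : ℕ) (A B C S : ℕ → Γ) (z : Γ) : Prop :=
  ∀ i, i + 2 < g → fa C S i 0 * ((A (i + 1) * B (i + 1)) ^ 3 * fa C S (i + 1) 0 *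
      ((A (i + 1) * B (i + 1)) ^ 3)⁻¹) * fa C S i 1 =
    z * (A i * A (i + 1) * A (i + 2) * Ew A B C i)

theorem LnZ.ltz (H : LnZ g A B C S z) (L : Lk g A B C S) {i : ℕ} (hi : i + 2 < g) :
    LtZ A B C S z i 0 0 :=
  ⟨Ew A B C i, H i hi, Ew_br0 L hi, Ew_br1 L hi, Ew_br2 L hi⟩

theorem LnZ.ln (H : LnZ g A B C S 1) (L : Lk g A B C S) : Ln g A B C S := by
  refine ⟨fun i hi => ⟨Ew A B C i, ?_, Ew_br0 L hi, Ew_br1 L hi, Ew_br2 L hi⟩⟩
  have h := H i hi
  rw [one_mul] at h
  exact h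

/-- The front arc of three handles in terms of the twists of the lantern. -/
theorem LnZ.star (H : LnZ g A B C S 1) {i : ℕ} (hi : i + 2 < g) : fa C S i 1 ∈
    Subgroup.closure {C i, C (i + 1), A i, A (i + 1), A (i + 2), B (i + 1)} := by
  have h := H i hi
  rw [one_mul] at h
  have h1 := eq_inv_mul_of_mul_eq h
  rw [h1]
  have m1 : C i ∈ Subgroup.closure {C i, C (i + 1), A i, A (i + 1), A (i + 2), B (i + 1)} :=
    Subgroup.subset_closure (by simp)
  have m2 : C (i + 1) ∈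
      Subgroup.closure {C i, C (i + 1), A i, A (i + 1), A (i + 2), B (i + 1)} :=
    Subgroup.subset_closure (by simp)
  have m3 : A i ∈ Subgroup.closure {C i, C (i + 1), A i, A (i + 1), A (i + 2), B (i + 1)} :=
    Subgroup.subset_closure (by simp)
  have m4 : A (i + 1) ∈
      Subgroup.closure {C i, C (i + 1), A i, A (i + 1), A (i + 2), B (i + 1)} :=
    Subgroup.subset_closure (by simp)
  have m5 : A (i + 2) ∈
      Subgroup.closure {C i, C (i + 1), A i, A (i + 1), A (i + 2), B (i + 1)} :=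
    Subgroup.subset_closure (by simp)
  have m6 : B (i + 1) ∈
      Subgroup.closure {C i, C (i + 1), A i, A (i + 1), A (i + 2), B (i + 1)} :=
    Subgroup.subset_closure (by simp)
  have mG : Ge A B C (i + 1) ∈
      Subgroup.closure {C i, C (i + 1), A i, A (i + 1), A (i + 2), B (i + 1)} :=
    mul_mem m6 (mul_mem (mul_mem (mul_mem (mul_mem m4 m6) (inv_mem m2)) (inv_mem m6))
      (inv_mem m4))
  have mio := pow_mem (mul_mem m4 m6) 3
  refine mul_mem (inv_mem (mul_mem m1 (mul_mem (mul_mem mio m2) (inv_mem mio)))) ?_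
  exact mul_mem (mul_mem (mul_mem m3 m4) m5) (mul_mem (mul_mem mG m1) (inv_mem mG))

theorem LnZ.scale (H : LnZ g A B C S z) (hz : ∀ x, Commute x z) :
    LnZ g (sA g A z) (sA g B z) (sC g C z) (sS g S z) 1 := by
  intro i hi
  have k0 : i < g := by omega
  have k1 : i + 1 < g := by omega
  have e1 := fa_scale hz (C := C) (S := S) (l := i) 0 (g := g) (by omega)
  have e2 := fa_scale hz (C := C) (S := S) (l := i + 1) 0 (g := g) (by omega)
  have e3 := fa_scale hz (C := C) (S := S) (l := i) 1 (g := g) (by omega)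
  have h := H i hi
  rw [e1, e2, e3, sA_lt k0, sA_lt k1, sA_lt k1, sA_lt hi, Ew_scale hz hi]
  simp only [zz_mul hz 1 1 (A (i + 1)) (B (i + 1)), zz_pow hz (1 + 1) 3 (A (i + 1) * B (i + 1))]
  rw [zz_conj hz, zz_conj1 hz]
  simp only [zz_mul hz, h]
  rw [← mul_assoc, ← pow_succ, one_mul]

theorem Bp_scale {q : ℕ} {T : Γ} (P : Bp g A B C S q T) (hz : ∀ x, Commute x z) (hq : q < g) :
    Bp g (sA g A z) (sA g B z) (sC g C z) (sS g S z) q (z ^ 1 * T) where
  TA i := com_sA hz 1 (P.TA i)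
  TB i h := com_sA hz 1 (P.TB i h)
  TC i := com_sC hz 1 (P.TC i)
  brT := by simp only [sA_lt hq, zz_mul hz, P.brT]

end Pool.MP_59b15d_al.H47P
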